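import Pool.Agent.Helper58.Qip.Unif
import Pool.Agent.Helper58.Qip.Stmts2

set_option autoImplicit false
set_option linter.unusedSectionVars false

/-!
Packet E2: the ergodic theorem along the chain started from a fixed environment.
-/

open MeasureTheory ProbabilityTheory Filter Topology
open scoped ENNReal NNReal

namespace Pool.Agent.Helper58.Qip

namespace E2

variable {Ω D : Type} [MeasurableSpace Ω] [Fintype D] [Nonempty D] [MeasurableSpace D]
  [MeasurableSingletonClass D] {P : Measure Ω} (S : RevSys Ω D P)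

lemma env_dep (ω : Ω) (k : ℕ) : Dep k (fun u : ℕ → D => S.env ω u k) := by
  induction k with
  | zero => intro u u' _; rfl
  | succ k ih =>
    intro u u' hu
    change S.σ (u k) (S.env ω u k) = S.σ (u' k) (S.env ω u' k)
    have h1 : S.env ω u k = S.env ω u' k := ih u u' fun i hi => hu i (by omega)
    rw [hu k (by omega), h1]

lemma env_dep' {β : Type*} (ω : Ω) {k N : ℕ} (h : k ≤ N) (g : Ω → β) :
    Dep N (fun u : ℕ → D => g (S.env ω u k)) := ((env_dep S ω k).mono h).comp g

lemma Rit_R (h : Ω → ℝ) (k : ℕ) : S.Rit (S.R h) k = S.Rit h (k + 1) := by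
  induction k with
  | zero => rfl
  | succ k ih =>
    change S.R (S.Rit (S.R h) k) = S.R (S.Rit h (k + 1))
    rw [ih]

lemma integral_env (ω : Ω) (k : ℕ) (h : Ω → ℝ) :
    ∫ u, h (S.env ω u k) ∂unif D = S.Rit h k ω := by
  induction k generalizing h with
  | zero =>
    change ∫ u, h ω ∂unif D = h ω
    simp
  | succ k ih =>
    rw [← Rit_R, ← ih (S.R h)]
    exact integral_step (g := fun u e => h (S.σ e (S.env ω u k)))
      fun e => env_dep' S ω le_rfl fun x => h (S.σ e x)

lemma abs_R_le {g : Ω → ℝ} {C : ℝ} (hC : ∀ ω, |g ω| ≤ C) (ω : Ω) : |S.R g ω| ≤ C := by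
  have hD : (0 : ℝ) < (Fintype.card D : ℝ) := by exact_mod_cast Fintype.card_pos
  unfold RevSys.R
  rw [abs_div, abs_of_pos hD, div_le_iff₀ hD]
  calc |∑ e, g (S.σ e ω)| ≤ ∑ e, |g (S.σ e ω)| := Finset.abs_sum_le_sum_abs _ _
    _ ≤ ∑ _e : D, C := Finset.sum_le_sum fun e _ => hC _
    _ = C * (Fintype.card D : ℝ) := by simp [mul_comm]

lemma measurable_R {g : Ω → ℝ} (hg : Measurable g) : Measurable (S.R g) := by
  unfold RevSys.R
  exact (Finset.measurable_sum _ fun e _ => hg.comp (S.mp e).measurable).div_const _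

/-- The martingale. -/
noncomputable def mart (g : Ω → ℝ) (ω : Ω) (n : ℕ) (u : ℕ → D) : ℝ :=
  ∑ k ∈ Finset.range n, (g (S.env ω u (k + 1)) - S.R g (S.env ω u k))

lemma mart_dep (g : Ω → ℝ) (ω : Ω) (n : ℕ) : Dep n (mart S g ω n) := by
  refine Dep.sum _ fun k hk => ?_
  have hk' := Finset.mem_range.mp hk
  exact (env_dep' S ω (by omega) g).comp₂ (env_dep' S ω hk'.le (S.R g)) fun a b => a - b

lemma mart_sq {g : Ω → ℝ} {C : ℝ} (hC : ∀ ω, |g ω| ≤ C) (ω : Ω) (n : ℕ) :
    ∫ u, mart S g ω n u ^ 2 ∂unif D ≤ 4 * C ^ 2 * n := by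
  induction n with
  | zero => simp [mart]
  | succ n ih =>
    have hD : (0 : ℝ) < (Fintype.card D : ℝ) := by exact_mod_cast Fintype.card_pos
    set m : (ℕ → D) → ℝ := fun u => g (S.env ω u (n + 1)) - S.R g (S.env ω u n) with hm
    have hmd : Dep (n + 1) m :=
      (env_dep' S ω le_rfl g).comp₂ (env_dep' S ω (by omega) (S.R g)) fun a b => a - b
    have hMd : Dep (n + 1) (mart S g ω n) := (mart_dep S g ω n).mono (by omega)
    have hexp : ∀ u, mart S g ω (n + 1) u ^ 2
        = mart S g ω n u ^ 2 + (2 * (mart S g ω n u * m u) + m u ^ 2) := by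
      intro u
      have : mart S g ω (n + 1) u = mart S g ω n u + m u := by
        simp only [mart, Finset.sum_range_succ, hm]
      rw [this]; ring
    have hcross : ∫ u, mart S g ω n u * m u ∂unif D = 0 := by
      have h1 := integral_step (D := D) (k := n)
        (g := fun u e => mart S g ω n u * (g (S.σ e (S.env ω u n)) - S.R g (S.env ω u n)))
        (fun e => (mart_dep S g ω n).comp₂
          (env_dep' S ω le_rfl fun x => g (S.σ e x) - S.R g x) fun a b => a * b)
      have h2 : ∀ u : ℕ → D, (∑ e, mart S g ω n u *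
          (g (S.σ e (S.env ω u n)) - S.R g (S.env ω u n))) / (Fintype.card D : ℝ) = 0 := by
        intro u
        rw [← Finset.mul_sum, Finset.sum_sub_distrib]
        have : ∑ e, g (S.σ e (S.env ω u n)) - ∑ _e : D, S.R g (S.env ω u n) = 0 := by
          simp only [Finset.sum_const, Finset.card_univ, nsmul_eq_mul, RevSys.R]
          field_simp
          ring
        rw [this]; simp
      simp only [h2, integral_zero] at h1
      exact h1
    have hm2 : ∫ u, m u ^ 2 ∂unif D ≤ 4 * C ^ 2 := by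
      have hle : ∀ u, m u ^ 2 ≤ 4 * C ^ 2 := by
        intro u
        have h1 := hC (S.env ω u (n + 1))
        have h2 := abs_R_le S hC (S.env ω u n)
        have h3 : |m u| ≤ 2 * C := (abs_sub _ _).trans (by linarith)
        have h4 : m u ^ 2 ≤ (2 * C) ^ 2 := by
          rw [← sq_abs]
          exact pow_le_pow_left₀ (abs_nonneg _) h3 2
        calc m u ^ 2 ≤ (2 * C) ^ 2 := h4
          _ = 4 * C ^ 2 := by ring
      calc ∫ u, m u ^ 2 ∂unif D ≤ ∫ _u, 4 * C ^ 2 ∂unif D := by
            exact integral_mono ((hmd.comp fun a => a ^ 2).integrable _) (integrable_const _) hle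
        _ = 4 * C ^ 2 := by simp
    have i1 : Integrable (fun u => mart S g ω n u ^ 2) (unif D) :=
      (hMd.comp fun a => a ^ 2).integrable _
    have i2 : Integrable (fun u => 2 * (mart S g ω n u * m u)) (unif D) :=
      ((hMd.comp₂ hmd fun a b => a * b).comp fun a => 2 * a).integrable _
    have i3 : Integrable (fun u => m u ^ 2) (unif D) := (hmd.comp fun a => a ^ 2).integrable _
    have i23 : Integrable (fun u => 2 * (mart S g ω n u * m u) + m u ^ 2) (unif D) := i2.add i3
    simp only [hexp]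
    rw [integral_add i1 i23, integral_add i2 i3, integral_const_mul, hcross]
    push_cast
    linarith

lemma abs_mart_le {g : Ω → ℝ} {C : ℝ} (hC : ∀ ω, |g ω| ≤ C) (ω : Ω) {n : ℕ} (hn : 0 < n)
    {δ : ℝ} (hδ : 0 < δ) :
    ∫ u, |mart S g ω n u| / n ∂unif D ≤ δ + C ^ 2 / (δ * n) := by
  have hn' : (0 : ℝ) < n := by exact_mod_cast hn
  have hle : ∀ u, |mart S g ω n u| / n ≤ δ + mart S g ω n u ^ 2 * (1 / (4 * δ * n ^ 2)) := by
    intro u
    have h1 : |mart S g ω n u| * (4 * δ * n) ≤ 4 * δ ^ 2 * n ^ 2 + mart S g ω n u ^ 2 := by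
      rw [← sq_abs (mart S g ω n u)]
      nlinarith [sq_nonneg (|mart S g ω n u| - 2 * δ * n)]
    rw [div_le_iff₀ hn']
    have h2 : (δ + mart S g ω n u ^ 2 * (1 / (4 * δ * n ^ 2))) * n
        = (4 * δ ^ 2 * n ^ 2 + mart S g ω n u ^ 2) / (4 * δ * n) := by
      field_simp
    rw [h2, le_div_iff₀ (by positivity)]
    exact h1
  have hd := mart_dep S g ω n
  calc ∫ u, |mart S g ω n u| / n ∂unif D
      ≤ ∫ u, (δ + mart S g ω n u ^ 2 * (1 / (4 * δ * n ^ 2))) ∂unif D :=
        integral_mono ((hd.comp fun a => |a| / n).integrable _)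
          ((hd.comp fun a => δ + a ^ 2 * (1 / (4 * δ * n ^ 2))).integrable _) hle
    _ = δ + (∫ u, mart S g ω n u ^ 2 ∂unif D) * (1 / (4 * δ * n ^ 2)) := by
        rw [integral_add (integrable_const _)
          ((hd.comp fun a => a ^ 2 * (1 / (4 * δ * n ^ 2))).integrable _), integral_mul_const]
        simp
    _ ≤ δ + (4 * C ^ 2 * n) * (1 / (4 * δ * n ^ 2)) := by
        have := mart_sq S hC ω n
        gcongr
    _ = δ + C ^ 2 / (δ * n) := by
        field_simp

/-- The decomposition of the ergodic sum. -/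
lemma decomp (f g : Ω → ℝ) (c : ℝ) (ω : Ω) (n : ℕ) (u : ℕ → D) :
    ∑ k ∈ Finset.range n, f (S.env ω u k) - n * c
      = (g ω - g (S.env ω u n)) + mart S g ω n u
        + ∑ k ∈ Finset.range n, (f (S.env ω u k) - c - (g (S.env ω u k) - S.R g (S.env ω u k))) := by
  induction n with
  | zero => simp [mart, RevSys.env]
  | succ n ih =>
    have hm : mart S g ω (n + 1) u = mart S g ω n u
        + (g (S.env ω u (n + 1)) - S.R g (S.env ω u n)) := by
      simp only [mart, Finset.sum_range_succ]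
    rw [Finset.sum_range_succ, Finset.sum_range_succ, hm]
    push_cast
    linarith

lemma main_bound {f g : Ω → ℝ} {C : ℝ} (hC : ∀ ω, |g ω| ≤ C) (c : ℝ) (ω : Ω) {n : ℕ}
    (hn : 0 < n) {δ : ℝ} (hδ : 0 < δ) :
    ∫ u, |(∑ k ∈ Finset.range n, f (S.env ω u k)) / (n : ℝ) - c| ∂unif D
      ≤ 2 * C / n + (δ + C ^ 2 / (δ * n))
        + (∑ k ∈ Finset.range n, S.Rit (fun x => |f x - c - (g x - S.R g x)|) k ω) / (n : ℝ) := by
  have hn' : (0 : ℝ) < n := by exact_mod_cast hn
  set r : Ω → ℝ := fun x => f x - c - (g x - S.R g x) with hr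
  have hle : ∀ u : ℕ → D, |(∑ k ∈ Finset.range n, f (S.env ω u k)) / (n : ℝ) - c|
      ≤ 2 * C / n + (|mart S g ω n u| / n
        + ∑ k ∈ Finset.range n, |r (S.env ω u k)| / n) := by
    intro u
    have h0 := decomp S f g c ω n u
    have h1 : (∑ k ∈ Finset.range n, f (S.env ω u k)) / (n : ℝ) - c
        = (∑ k ∈ Finset.range n, f (S.env ω u k) - n * c) / n := by
      field_simp
    rw [h1, h0, abs_div, abs_of_pos hn', ← Finset.sum_div, ← add_div, ← add_div]
    apply div_le_div_of_nonneg_right _ hn'.le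
    have h2 : |∑ k ∈ Finset.range n, r (S.env ω u k)| ≤ ∑ k ∈ Finset.range n,
      |r (S.env ω u k)| := Finset.abs_sum_le_sum_abs _ _
    have h3 : |g ω - g (S.env ω u n)| ≤ 2 * C :=
      (abs_sub _ _).trans (by linarith [hC ω, hC (S.env ω u n)])
    calc |(g ω - g (S.env ω u n)) + mart S g ω n u + ∑ k ∈ Finset.range n, r (S.env ω u k)|
        ≤ |(g ω - g (S.env ω u n)) + mart S g ω n u|
          + |∑ k ∈ Finset.range n, r (S.env ω u k)| := abs_add_le _ _
      _ ≤ |g ω - g (S.env ω u n)| + |mart S g ω n u|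
          + |∑ k ∈ Finset.range n, r (S.env ω u k)| := by
          gcongr; exact abs_add_le _ _
      _ ≤ _ := by linarith
  have d1 : Dep n (fun u : ℕ → D => ∑ k ∈ Finset.range n, f (S.env ω u k)) :=
    Dep.sum _ fun k hk => env_dep' S ω (Finset.mem_range.mp hk).le f
  have d2 : ∀ k ∈ Finset.range n, Dep n (fun u : ℕ → D => |r (S.env ω u k)| / n) :=
    fun k hk => env_dep' S ω (Finset.mem_range.mp hk).le fun x => |r x| / n
  have i1 : Integrable (fun u : ℕ → D => |(∑ k ∈ Finset.range n, f (S.env ω u k)) / (n : ℝ) - c|)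
      (unif D) := (d1.comp fun a => |a / n - c|).integrable _
  have i2 : Integrable (fun u : ℕ → D => |mart S g ω n u| / n) (unif D) :=
    ((mart_dep S g ω n).comp fun a => |a| / n).integrable _
  have i3 : Integrable (fun u : ℕ → D => ∑ k ∈ Finset.range n, |r (S.env ω u k)| / n)
      (unif D) := (Dep.sum _ d2).integrable _
  have i23 : Integrable (fun u : ℕ → D => |mart S g ω n u| / n
      + ∑ k ∈ Finset.range n, |r (S.env ω u k)| / n) (unif D) := i2.add i3
  calc ∫ u, |(∑ k ∈ Finset.range n, f (S.env ω u k)) / (n : ℝ) - c| ∂unif D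
      ≤ ∫ u, (2 * C / n + (|mart S g ω n u| / n
        + ∑ k ∈ Finset.range n, |r (S.env ω u k)| / n)) ∂unif D :=
        integral_mono i1 ((integrable_const _).add i23) hle
    _ = 2 * C / n + (∫ u, |mart S g ω n u| / n ∂unif D
        + ∑ k ∈ Finset.range n, (∫ u, |r (S.env ω u k)| / n ∂unif D)) := by
        rw [integral_add (integrable_const _) i23, integral_add i2 i3,
          integral_finsetSum _ fun k hk => (d2 k hk).integrable _]
        simp
    _ = 2 * C / n + (∫ u, |mart S g ω n u| / n ∂unif D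
        + (∑ k ∈ Finset.range n, S.Rit (fun x => |r x|) k ω) / (n : ℝ)) := by
        rw [Finset.sum_div]
        congr 2
        refine Finset.sum_congr rfl fun k _ => ?_
        rw [integral_div, integral_env S ω k fun x => |r x|]
    _ ≤ 2 * C / n + ((δ + C ^ 2 / (δ * n))
        + (∑ k ∈ Finset.range n, S.Rit (fun x => |r x|) k ω) / (n : ℝ)) := by
        have := abs_mart_le S hC ω hn hδ
        gcongr
    _ = _ := by ring

end E2

open E2 in
theorem stmtE2 (hE : StmtE) (hE0 : StmtE0) : StmtE2 := by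
  intro Ω D _ _ _ _ _ P _ S hS f hf hfi
  set c : ℝ := ∫ x, f x ∂P with hc
  have key : ∀ j : ℕ, ∀ᵐ ω ∂P, ∀ᶠ n : ℕ in atTop,
      ∫ u, |(∑ k ∈ Finset.range n, f (S.env ω u k)) / (n : ℝ) - c| ∂unif D
        ≤ 5 * (1 / ((j : ℝ) + 1)) := by
    intro j
    have hj : (0 : ℝ) < 1 / ((j : ℝ) + 1) := by positivity
    set δ : ℝ := 1 / ((j : ℝ) + 1) with hδ
    obtain ⟨g, hg, ⟨C, hC⟩, hgr⟩ := hE0 Ω D P S hS f hf hfi δ hj
    have hgi : Integrable g P := Integrable.of_bound hg.aestronglyMeasurable C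
      (Eventually.of_forall fun x => by simpa using hC x)
    have hRi : Integrable (S.R g) P :=
      Integrable.of_bound (measurable_R S hg).aestronglyMeasurable C
        (Eventually.of_forall fun x => by simpa using abs_R_le S hC x)
    have hri : Integrable (fun x => |f x - c - (g x - S.R g x)|) P :=
      ((hfi.sub (integrable_const c)).sub (hgi.sub hRi)).abs
    have hrm : Measurable (fun x => |f x - c - (g x - S.R g x)|) := by
      have := measurable_R S hg
      fun_prop
    filter_upwards [hE Ω D P S hS _ hrm hri] with ω hω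
    have h1 : ∀ᶠ n : ℕ in atTop,
        (∑ k ∈ Finset.range n, S.Rit (fun x => |f x - c - (g x - S.R g x)|) k ω) / (n : ℝ)
          < 2 * δ := by
      apply hω.eventually_lt_const
      linarith
    have h2 : ∀ᶠ n : ℕ in atTop, 2 * C / (n : ℝ) < δ := by
      have : Tendsto (fun n : ℕ => 2 * C / (n : ℝ)) atTop (𝓝 0) :=
        tendsto_const_div_atTop_nhds_zero_nat _
      exact this.eventually_lt_const hj
    have h3 : ∀ᶠ n : ℕ in atTop, C ^ 2 / (δ * (n : ℝ)) < δ := by
      have h : Tendsto (fun n : ℕ => (C ^ 2 / δ) / (n : ℝ)) atTop (𝓝 0) :=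
        tendsto_const_div_atTop_nhds_zero_nat _
      have h' := h.eventually_lt_const hj
      filter_upwards [h'] with n hn
      rwa [div_div] at hn
    filter_upwards [h1, h2, h3, eventually_gt_atTop 0] with n h1 h2 h3 hn
    have := main_bound S (f := f) hC c ω hn hj
    linarith
  filter_upwards [ae_all_iff.mpr key] with ω hω ε hε
  have hT : Tendsto (fun n : ℕ =>
      ∫ u, |(∑ k ∈ Finset.range n, f (S.env ω u k)) / (n : ℝ) - c| ∂unif D) atTop (𝓝 0) := by
    rw [Metric.tendsto_atTop']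
    intro η hη
    obtain ⟨j, hj⟩ := exists_nat_one_div_lt (show (0 : ℝ) < η / 5 by positivity)
    obtain ⟨N, hN⟩ := eventually_atTop.mp (hω j)
    refine ⟨N, fun n hn => ?_⟩
    have h0 : 0 ≤ ∫ u, |(∑ k ∈ Finset.range n, f (S.env ω u k)) / (n : ℝ) - c| ∂unif D :=
      integral_nonneg fun u => abs_nonneg _
    rw [Real.dist_eq, sub_zero, abs_of_nonneg h0]
    have := hN n hn.le
    linarith
  have hT2 := hT.div_const ε
  rw [zero_div] at hT2
  refine squeeze_zero (fun n => measureReal_nonneg) (fun n => ?_) hT2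
  rw [le_div_iff₀ hε, mul_comm]
  refine mul_meas_ge_le_integral_of_nonneg (Eventually.of_forall fun u => abs_nonneg _) ?_ ε
  have d1 : Dep n (fun u : ℕ → D => ∑ k ∈ Finset.range n, f (S.env ω u k)) :=
    Dep.sum _ fun k hk => env_dep' S ω (Finset.mem_range.mp hk).le f
  exact (d1.comp fun a => |a / n - c|).integrable _

end Pool.Agent.Helper58.Qip
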