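import Pool.Agent.Helper58.Qip.Unif
import Pool.Agent.Helper58.Qip.Stmts2

set_option autoImplicit false
set_option linter.unusedSectionVars false

/-!
Packet M: measurability of functionals of the path.
-/

open MeasureTheory ProbabilityTheory Filter Topology
open scoped ENNReal NNReal

namespace Pool.Agent.Helper58.Qip

namespace MeasM

lemma walk_congr {d : ℕ} (ω : Conf d) {u u' : ℕ → Dir d} {m : ℕ}
    (h : ∀ i, i < m → u i = u' i) : ∀ j, j ≤ m → walk ω u j = walk ω u' j := by
  intro j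
  induction j with
  | zero => intro _; rfl
  | succ j ih =>
    intro hj
    change nxt ω (walk ω u j) (u j) = nxt ω (walk ω u' j) (u' j)
    rw [ih (by omega), h j (by omega)]

lemma cadlag_step {E : Type*} [TopologicalSpace E] (n : ℝ≥0) (g : ℕ → E) :
    Cadlag fun t : ℝ≥0 => g ⌊n * t⌋₊ := by
  intro t
  constructor
  · have hev : ∀ᶠ s in 𝓝[≥] t, g ⌊n * s⌋₊ = g ⌊n * t⌋₊ := by
      have hopen : IsOpen {s : ℝ≥0 | n * s < (⌊n * t⌋₊ : ℝ≥0) + 1} :=
        isOpen_lt (by fun_prop) continuous_const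
      have hmem : t ∈ {s : ℝ≥0 | n * s < (⌊n * t⌋₊ : ℝ≥0) + 1} := by
        change n * t < (⌊n * t⌋₊ : ℝ≥0) + 1
        exact Nat.lt_floor_add_one _
      filter_upwards [nhdsWithin_le_nhds (hopen.mem_nhds hmem), self_mem_nhdsWithin] with s hs hst
      have h1 : ⌊n * s⌋₊ ≤ ⌊n * t⌋₊ := by
        have h3 : n * s < ((⌊n * t⌋₊ + 1 : ℕ) : ℝ≥0) := by push_cast; exact hs
        have := (Nat.floor_lt zero_le).mpr h3
        omega
      have h2 : ⌊n * t⌋₊ ≤ ⌊n * s⌋₊ := Nat.floor_mono (mul_le_mul_right hst n)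
      rw [le_antisymm h1 h2]
    exact (tendsto_const_nhds (x := g ⌊n * t⌋₊)).congr' (hev.mono fun s hs => hs.symm)
  · rcases Nat.eq_zero_or_pos ⌈n * t⌉₊ with h0 | hpos
    · refine ⟨g 0, (tendsto_const_nhds (x := g 0)).congr' ?_⟩
      have hnt : n * t = 0 := le_antisymm (Nat.ceil_eq_zero.mp h0) zero_le
      filter_upwards [self_mem_nhdsWithin] with s hs
      have hns : n * s = 0 := by
        apply le_antisymm _ zero_le
        rw [← hnt]
        exact mul_le_mul_right (le_of_lt hs) n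
      rw [hns]; simp
    · obtain ⟨k, hk⟩ := Nat.exists_eq_succ_of_ne_zero hpos.ne'
      refine ⟨g k, (tendsto_const_nhds (x := g k)).congr' ?_⟩
      have hkt : (k : ℝ≥0) < n * t := by
        rw [← Nat.lt_ceil]; omega
      have htk : n * t ≤ ((k + 1 : ℕ) : ℝ≥0) := by
        rw [← Nat.ceil_le]; omega
      have hn : 0 < n := by
        by_contra hc
        have : n = 0 := le_antisymm (not_lt.mp hc) zero_le
        rw [this, zero_mul] at hkt
        exact absurd hkt (not_lt.mpr zero_le)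
      have hopen : IsOpen {s : ℝ≥0 | (k : ℝ≥0) < n * s} := isOpen_lt continuous_const (by fun_prop)
      filter_upwards [nhdsWithin_le_nhds (hopen.mem_nhds hkt), self_mem_nhdsWithin] with s hs hst
      have h1 : n * s < ((k + 1 : ℕ) : ℝ≥0) :=
        lt_of_lt_of_le (mul_lt_mul_of_pos_left hst hn) htk
      have h2 : ⌊n * s⌋₊ < k + 1 := (Nat.floor_lt zero_le).mpr h1
      have h3 : k ≤ ⌊n * s⌋₊ := Nat.le_floor (le_of_lt hs)
      rw [show ⌊n * s⌋₊ = k by omega]

lemma cadlag_path {d : ℕ} (ω : Conf d) (u : ℕ → Dir d) (n : ℕ) : Cadlag (path ω u n) :=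
  cadlag_step (n : ℝ≥0) fun j => WithLp.toLp 2 fun i => (walk ω u j i : ℝ) / √(n : ℝ)

/-- Truncation of a sequence. -/
def trunc {D : Type} (m : ℕ) (u : ℕ → D) : ℕ → D := fun i => if i < m then u i else u 0

lemma trunc_dep {D β : Type} (m : ℕ) (G : (ℕ → D) → β) :
    Dep (m + 1) fun u => G (trunc m u) := by
  intro u u' hu
  have : trunc m u = trunc m u' := by
    funext i
    unfold trunc
    split
    · exact hu i (by omega)
    · exact hu 0 (by omega)
  simp only [this]

lemma trunc_tendsto {d : ℕ} (ω : Conf d) (n : ℕ) (u : ℕ → Dir d) :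
    J1Tendsto (fun m => path ω (trunc m u) n) (path ω u n) := by
  refine ⟨fun _ => OrderIso.refl _, fun T ε hε => ?_⟩
  filter_upwards [eventually_ge_atTop ⌊(n : ℝ≥0) * T⌋₊] with m hm t ht
  have h1 : ⌊(n : ℝ≥0) * t⌋₊ ≤ m := (Nat.floor_mono (mul_le_mul_right ht _)).trans hm
  have h2 : walk ω (trunc m u) ⌊(n : ℝ≥0) * t⌋₊ = walk ω u ⌊(n : ℝ≥0) * t⌋₊ :=
    walk_congr ω (m := m) (fun i hi => by simp [trunc, hi]) _ h1
  constructor
  · simpa using hε
  · have h3 : path ω (trunc m u) n t = path ω u n t := by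
      unfold path
      rw [h2]
    simp only [OrderIso.refl_apply, h3, dist_self]
    exact hε

end MeasM

open MeasM in
theorem stmtM : StmtM := by
  intro d ω n F _ hF
  rcases isEmpty_or_nonempty (Dir d) with hempty | hne
  · have : IsEmpty (ℕ → Dir d) := ⟨fun u => hempty.false (u 0)⟩
    exact measurable_of_empty _
  · refine measurable_of_tendsto_metrizable
      (f := fun m (u : ℕ → Dir d) => F (path ω (trunc m u) n)) (fun m => ?_) ?_
    · exact (trunc_dep m fun u => F (path ω u n)).measurable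
    · rw [tendsto_pi_nhds]
      intro u
      exact hF _ _ (fun m => cadlag_path ω _ n) (cadlag_path ω u n) (trunc_tendsto ω n u)

end Pool.Agent.Helper58.Qip
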